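import Pool.Agent.Q29.BX.Big

/-!
# A congruence box space of `ℤ ≀ ℤ` with property `D_α` for every `α < 1`

The definitions (word length, diameter of a quotient, filtrations, property `D_α`, the group
`G = ℤ ≀ ℤ` as a subgroup of `GL₂(ℤ[X, X⁻¹])`, its congruence subgroups, sequences of ideals which
define a congruence box space) are in `Pool.Agent.Q29.BX.Defs`.
-/

namespace Pool.Agent.Results.MP_625351_al.LargeDiameter

open Q29.BX

/-- There is a congruence box space of `G = ℤ ≀ ℤ` which has property `D_α` for every
`0 < α < 1` (with respect to every finite generating set of `G`). -/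
theorem result : ∃ I : ℕ → Ideal A, IsCongruenceFiltration I ∧
    ∀ S : Set G, S.Finite → Subgroup.closure S = ⊤ → ∀ α : ℝ, 0 < α → α < 1 →
      PropertyD S (fun k => congr (I k)) α :=
  ⟨I, I_congr, fun _ hSf hS _ hα hα1 => prop_D hSf hS hα hα1⟩

/-- The group `G` is finitely generated, so the statement above is not vacuous. -/
theorem finitely_generated : ∃ S : Set G, S.Finite ∧ Subgroup.closure S = ⊤ :=
  ⟨{el 1 0, el 0 1}, by simp, closure_std⟩

end Pool.Agent.Results.MP_625351_al.LargeDiameter
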